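import Pool.Agent.MP_52bf41_ag.H12.Spec

/-! Homogeneous coordinates for morphisms to a scheme with a standard projective atlas. -/

open AlgebraicGeometry CategoryTheory Limits

namespace Pool.Agent.MP_52bf41_ag.H39

open H12

section General

variable {C T : Scheme.{0}}

theorem ι_comp_eq (c : T ⟶ C) {U : C.Opens} (hU : IsAffineOpen U) {V : T.Opens}
    (h : V ≤ c ⁻¹ᵁ U) :
    V.ι ≫ c = V.toSpecΓ ≫ Spec.map (c.appLE U V h) ≫ hU.fromSpec := by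
  rw [Scheme.Opens.toSpecΓ_SpecMap_appLE_assoc, hU.toSpecΓ_fromSpec, Scheme.Hom.resLE_comp_ι]

/-- Two morphisms into an affine open agree as soon as they pull back functions in the same way. -/
theorem ι_comp_ext {c c' : T ⟶ C} {U : C.Opens} (hU : IsAffineOpen U) {V : T.Opens}
    (h : V ≤ c ⁻¹ᵁ U) (h' : V ≤ c' ⁻¹ᵁ U) (e : pl c h = pl c' h') : V.ι ≫ c = V.ι ≫ c' := by
  have e' : c.appLE U V h = c'.appLE U V h' := CommRingCat.hom_ext e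
  rw [ι_comp_eq c hU h, ι_comp_eq c' hU h', e']

/-- A ring map out of an affine chart comes from a morphism. -/
theorem exists_hom {U : C.Opens} (hU : IsAffineOpen U) (φ : Γ(C, U) →+* Γ(T, ⊤)) :
    ∃ (g : T ⟶ C) (h : ⊤ ≤ g ⁻¹ᵁ U), ∀ b, pl g h b = φ b := by
  obtain ⟨p, hp⟩ := exists_pb (A := Γ(C, U)) φ
  have h0 : ⊤ ≤ hU.fromSpec ⁻¹ᵁ U := hU.fromSpec_preimage_self.ge
  refine ⟨p ≫ hU.fromSpec, le_top.trans (p.preimage_mono h0), fun b => ?_⟩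
  have h1 : pl hU.fromSpec h0 b = (Scheme.ΓSpecIso Γ(C, U)).inv.hom b := by
    have : hU.fromSpec.appLE U ⊤ h0 = (Scheme.ΓSpecIso Γ(C, U)).inv := by
      rw [Scheme.Hom.appLE, hU.fromSpec_app_self, Category.assoc, ← Functor.map_comp]
      exact (congrArg _ ((Spec Γ(C, U)).presheaf.map_id _)).trans (Category.comp_id _)
    exact congrArg (fun f => f.hom b) this
  rw [← pl_pl hU.fromSpec p h0 le_top, h1, pl_top, ← hp]
  rfl

theorem pl_ι (V : T.Opens) {W : T.Opens} {W' : V.toScheme.Opens} (h : W' ≤ V.ι ⁻¹ᵁ W)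
    (b : Γ(T, W)) :
    pl V.ι h b = res (V := V.ι ''ᵁ W') (Set.image_subset_iff.mpr h) b :=
  congrArg (fun f => f.hom b) (Scheme.Opens.ι_appLE V W W' h)

theorem res_eq_of_pl (V : T.Opens) {W : T.Opens} {b b' : Γ(T, W)}
    (e : pl V.ι (le_rfl : V.ι ⁻¹ᵁ W ≤ _) b = pl V.ι le_rfl b') :
    res (inf_le_right : V ⊓ W ≤ W) b = res inf_le_right b' := by
  rw [pl_ι, pl_ι] at e
  have hle : V ⊓ W ≤ V.ι ''ᵁ (V.ι ⁻¹ᵁ W) := fun x hx => ⟨⟨x, hx.1⟩, hx.2, rfl⟩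
  have := congrArg (res hle) e
  simpa only [res_res] using this

theorem eval₂_hom {B R κ : Type} [CommRing B] [CommRing R] {e : MvPolynomial κ B} {n : ℕ}
    (he : e.IsHomogeneous n) (φ : B →+* R) (y : κ → R) (u : R) :
    MvPolynomial.eval₂Hom φ (fun k => y k * u) e = MvPolynomial.eval₂Hom φ y e * u ^ n := by
  simp only [MvPolynomial.coe_eval₂Hom, MvPolynomial.eval₂_eq, Finset.sum_mul]
  refine Finset.sum_congr rfl fun d hd => ?_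
  have h1 : ∑ i ∈ d.support, d i = n := by
    have := he (MvPolynomial.mem_support_iff.mp hd)
    simpa [Finsupp.weight_apply, Finsupp.sum] using this
  simp only [mul_pow, Finset.prod_mul_distrib, Finset.prod_pow_eq_pow_sum, h1]
  ring

theorem map_eval₂ {B R S κ : Type} [CommRing B] [CommRing R] [CommRing S] (ψ : R →+* S)
    (φ : B →+* R) (φ' : B →+* S) (h : ∀ b, ψ (φ b) = φ' b) (y : κ → R) (e : MvPolynomial κ B) :
    ψ (MvPolynomial.eval₂Hom φ y e) = MvPolynomial.eval₂Hom φ' (fun k => ψ (y k)) e := by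
  rw [MvPolynomial.map_eval₂Hom, show ψ.comp φ = φ' from RingHom.ext h]

variable {κ : Type}

theorem Unimod.exists {O : T.Opens} {y : κ → Γ(T, O)} (h : Unimod y) {x : T} (hx : x ∈ O) :
    ∃ k, x ∈ T.basicOpen (y k) :=
  TopologicalSpace.Opens.mem_iSup.mp (h hx)

theorem unimod_of {O : T.Opens} {y : κ → Γ(T, O)} (h : ∀ x ∈ O, ∃ k, x ∈ T.basicOpen (y k)) :
    Unimod y := fun x hx => TopologicalSpace.Opens.mem_iSup.mpr (h x hx)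

theorem cross_map {R S : Type} [CommRing R] [CommRing S] (ψ : R →+* S) {y y' : κ → R}
    (h : Cross y y') : Cross (fun k => ψ (y k)) fun k => ψ (y' k) := fun k l => by
  simpa only [map_mul] using congrArg ψ (h k l)

theorem cross_symm {R : Type} [CommRing R] {y y' : κ → R} (h : Cross y y') : Cross y' y :=
  fun k l => by linear_combination h l k

theorem crossTrans {O : T.Opens} {y y' y'' : κ → Γ(T, O)} (h : Cross y y') (h' : Cross y' y'')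
    (hu : Unimod y') : Cross y y'' := fun k l => by
  refine eq_of_local fun x hx => ?_
  obtain ⟨m, hm⟩ := Unimod.exists hu hx
  refine ⟨_, T.basicOpen_le (y' m), hm, ?_⟩
  refine (isUnit_of_le_basicOpen (T.basicOpen_le (y' m)) (y' m) le_rfl).mul_left_cancel ?_
  rw [← map_mul, ← map_mul]
  refine congrArg _ ?_
  linear_combination y k * h' m l + y'' m * h k l - y l * h' m k

end General

variable {B κ : Type} [CommRing B] {E : Set (MvPolynomial κ B)} (𝒜 : Atlas B κ E)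
  {T : Scheme.{0}}

variable {𝒜} in
theorem rep_eq {c : T ⟶ 𝒜.C} {O : T.Opens} {y : κ → Γ(T, O)} (h : 𝒜.Rep c O y) (k l : κ)
    {V : T.Opens} (hV : V ≤ O) (hV' : V ≤ c ⁻¹ᵁ 𝒜.Dk k) :
    pl c hV' (𝒜.Y k l) * res hV (y k) = res hV (y l) := by
  obtain ⟨e, he⟩ := h k
  have := congrArg (res ((le_inf hV hV').trans e.ge)) (he l)
  simpa only [map_mul, res_pl, res_res] using this

theorem exists_chart (x : 𝒜.C) : ∃ k, x ∈ 𝒜.Dk k :=
  TopologicalSpace.Opens.mem_iSup.mp (𝒜.cover.ge (Set.mem_univ x))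

theorem self (c : T ⟶ 𝒜.C) (k : κ) :
    𝒜.Rep c (c ⁻¹ᵁ 𝒜.Dk k) fun l => pl c le_rfl (𝒜.Y k l) := fun k' => by
  have e : T.basicOpen (pl c le_rfl (𝒜.Y k k')) = c ⁻¹ᵁ 𝒜.Dk k ⊓ c ⁻¹ᵁ 𝒜.Dk k' := by
    rw [basicOpen_pl, ← 𝒜.inter, Scheme.Hom.preimage_inf, ← inf_assoc, inf_idem]
  refine ⟨e, fun l => ?_⟩
  have h1 : T.basicOpen (pl c le_rfl (𝒜.Y k k')) ≤ c ⁻¹ᵁ (𝒜.Dk k ⊓ 𝒜.Dk k') := by
    rw [Scheme.Hom.preimage_inf]
    exact e.le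
  have := congrArg (pl c h1) (𝒜.trans k k' l)
  rw [map_mul, pl_res, pl_res, pl_res, mul_comm] at this
  rw [res_pl, res_pl]
  exact this

variable {𝒜}

theorem restr {c : T ⟶ 𝒜.C} {O O' : T.Opens} {y : κ → Γ(T, O)} (e : O' ≤ O)
    (h : 𝒜.Rep c O y) : 𝒜.Rep c O' fun k => res e (y k) := fun k => by
  have e1 : T.basicOpen (res e (y k)) = O' ⊓ c ⁻¹ᵁ 𝒜.Dk k := by
    rw [basicOpen_res, (h k).1, ← inf_assoc, inf_eq_left.mpr e]
  refine ⟨e1, fun l => ?_⟩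
  simp only [res_res]
  exact rep_eq h k l _ _

theorem pull {T' : Scheme.{0}} {c : T ⟶ 𝒜.C} {O : T.Opens} {y : κ → Γ(T, O)} (g : T' ⟶ T)
    {O' : T'.Opens} (e : O' ≤ g ⁻¹ᵁ O) (h : 𝒜.Rep c O y) :
    𝒜.Rep (g ≫ c) O' fun k => pl g e (y k) := fun k => by
  obtain ⟨e0, he⟩ := h k
  have e1 : T'.basicOpen (pl g e (y k)) = O' ⊓ (g ≫ c) ⁻¹ᵁ 𝒜.Dk k := by
    rw [basicOpen_pl, e0, Scheme.Hom.preimage_inf, ← inf_assoc, inf_eq_left.mpr e]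
    rfl
  refine ⟨e1, fun l => ?_⟩
  have h1 : T'.basicOpen (pl g e (y k)) ≤ g ⁻¹ᵁ T.basicOpen (y k) :=
    (basicOpen_pl g e (y k)).le.trans inf_le_right
  have := congrArg (pl g h1) (he l)
  simpa only [map_mul, pl_pl, pl_res, res_pl] using this

theorem unimod {c : T ⟶ 𝒜.C} {O : T.Opens} {y : κ → Γ(T, O)} (h : 𝒜.Rep c O y) : Unimod y :=
  unimod_of fun x hx => by
    obtain ⟨k, hk⟩ := exists_chart 𝒜 (c x)
    exact ⟨k, (h k).1.ge ⟨hx, hk⟩⟩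

theorem eqs (hE : ∀ e ∈ E, e.IsHomogeneous 2) {c : T ⟶ 𝒜.C} {O : T.Opens} {y : κ → Γ(T, O)}
    (h : 𝒜.Rep c O y) (e : MvPolynomial κ B) (he : e ∈ E) :
    MvPolynomial.eval₂Hom (alg (c ≫ 𝒜.π) O) y e = 0 := by
  refine eq_of_local fun x hx => ?_
  obtain ⟨k, hk⟩ := exists_chart 𝒜 (c x)
  refine ⟨O ⊓ c ⁻¹ᵁ 𝒜.Dk k, inf_le_left, ⟨hx, hk⟩, ?_⟩
  have h0 : MvPolynomial.eval₂Hom (alg 𝒜.π (𝒜.Dk k)) (𝒜.Y k) e = 0 :=
    (𝒜.ker k e).mpr (Ideal.subset_span (Set.mem_insert_of_mem _ he))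
  have h1 := map_eval₂ (pl c (inf_le_right : O ⊓ c ⁻¹ᵁ 𝒜.Dk k ≤ _)) _ _
    (fun b => pl_alg c 𝒜.π _ b) (𝒜.Y k) e
  rw [h0, map_zero] at h1
  rw [map_eval₂ _ _ _ (fun b => res_alg _ _ b), map_zero]
  have h2 : (fun l => res (inf_le_left : O ⊓ c ⁻¹ᵁ 𝒜.Dk k ≤ _) (y l)) =
      fun l => pl c inf_le_right (𝒜.Y k l) * res inf_le_left (y k) :=
    funext fun l => (rep_eq h k l _ _).symm
  rw [h2, eval₂_hom (hE e he), ← h1, zero_mul]

theorem cross {c : T ⟶ 𝒜.C} {O : T.Opens} {y y' : κ → Γ(T, O)} (h : 𝒜.Rep c O y)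
    (h' : 𝒜.Rep c O y') : Cross y y' := fun k l => by
  refine eq_of_local fun x hx => ?_
  obtain ⟨m, hm⟩ := exists_chart 𝒜 (c x)
  refine ⟨O ⊓ c ⁻¹ᵁ 𝒜.Dk m, inf_le_left, ⟨hx, hm⟩, ?_⟩
  rw [map_mul, map_mul, ← rep_eq h m k _ inf_le_right, ← rep_eq h m l _ inf_le_right,
    ← rep_eq h' m k _ inf_le_right, ← rep_eq h' m l _ inf_le_right]
  ring

theorem mem_of_cross {O : T.Opens} {y y' : κ → Γ(T, O)} (hu : Unimod y) (hc : Cross y y') (k : κ) :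
    T.basicOpen (y' k) ≤ T.basicOpen (y k) := fun x hx => by
  obtain ⟨l, hl⟩ := Unimod.exists hu (T.basicOpen_le _ hx)
  have : x ∈ T.basicOpen (y l * y' k) := mem_basicOpen_mul.mpr ⟨hl, hx⟩
  rw [← hc k l] at this
  exact (mem_basicOpen_mul.mp this).1

theorem ofCross {c : T ⟶ 𝒜.C} {O : T.Opens} {y y' : κ → Γ(T, O)} (h : 𝒜.Rep c O y)
    (hu : Unimod y') (hc : Cross y y') : 𝒜.Rep c O y' := fun k => by
  have h1 := mem_of_cross (unimod h) hc k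
  have e1 : T.basicOpen (y' k) = O ⊓ c ⁻¹ᵁ 𝒜.Dk k :=
    (le_antisymm h1 (mem_of_cross hu (cross_symm hc) k)).trans (h k).1
  refine ⟨e1, fun l => ?_⟩
  refine (isUnit_of_le_basicOpen (T.basicOpen_le (y' k)) (y k) h1).mul_left_cancel ?_
  have h2 := rep_eq h k l (T.basicOpen_le (y' k)) (e1.le.trans inf_le_right)
  have h3 := cross_map (res (T.basicOpen_le (y' k))) hc k l
  linear_combination res (T.basicOpen_le (y' k)) (y' k) * h2 - h3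

theorem ext' {c c' : T ⟶ 𝒜.C} (hπ : c ≫ 𝒜.π = c' ≫ 𝒜.π)
    (h : ∀ x : T, ∃ (O : T.Opens) (y : κ → Γ(T, O)), x ∈ O ∧ 𝒜.Rep c O y ∧ 𝒜.Rep c' O y) :
    c = c' := by
  refine Scheme.hom_ext_of_forall _ _ fun x => ?_
  obtain ⟨O, y, hx, h1, h2⟩ := h x
  obtain ⟨k, hk⟩ := Unimod.exists (unimod h1) hx
  have l1 : T.basicOpen (y k) ≤ c ⁻¹ᵁ 𝒜.Dk k := (h1 k).1.le.trans inf_le_right
  have l2 : T.basicOpen (y k) ≤ c' ⁻¹ᵁ 𝒜.Dk k := (h2 k).1.le.trans inf_le_right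
  refine ⟨T.basicOpen (y k), hk, ι_comp_ext (𝒜.aff k) l1 l2 (RingHom.ext fun b => ?_)⟩
  obtain ⟨q, rfl⟩ := 𝒜.surj k b
  rw [map_eval₂ _ _ _ (fun b => pl_alg c 𝒜.π l1 b), map_eval₂ _ _ _ (fun b => pl_alg c' 𝒜.π l2 b),
    hπ]
  refine congrArg (fun z => MvPolynomial.eval₂Hom _ z q) (funext fun l => ?_)
  refine (isUnit_of_le_basicOpen (T.basicOpen_le (y k)) (y k) le_rfl).mul_right_cancel ?_
  rw [rep_eq h1, rep_eq h2]

theorem extDense {c c' : T ⟶ 𝒜.C} {W : T.Opens} {y : κ → Γ(T, W)} (hπ : c ≫ 𝒜.π = c' ≫ 𝒜.π)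
    (hW : DenseOpen W) (h : 𝒜.Rep c W y) (h' : 𝒜.Rep c' W y) : c = c' := by
  refine ext' hπ fun x => ?_
  obtain ⟨k, hk⟩ := exists_chart 𝒜 (c x)
  obtain ⟨l, hl⟩ := exists_chart 𝒜 (c' x)
  have r1 := restr (inf_le_left : c ⁻¹ᵁ 𝒜.Dk k ⊓ c' ⁻¹ᵁ 𝒜.Dk l ≤ _) (self 𝒜 c k)
  have r2 := restr (inf_le_right : c ⁻¹ᵁ 𝒜.Dk k ⊓ c' ⁻¹ᵁ 𝒜.Dk l ≤ _) (self 𝒜 c' l)
  refine ⟨c ⁻¹ᵁ 𝒜.Dk k ⊓ c' ⁻¹ᵁ 𝒜.Dk l, _, ⟨hk, hl⟩,
    ofCross r1 (unimod r2) fun a b => hW _ ?_, r2⟩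
  have s1 := restr (inf_le_right : (c ⁻¹ᵁ 𝒜.Dk k ⊓ c' ⁻¹ᵁ 𝒜.Dk l) ⊓ W ≤ W) h
  have s2 := restr (inf_le_right : (c ⁻¹ᵁ 𝒜.Dk k ⊓ c' ⁻¹ᵁ 𝒜.Dk l) ⊓ W ≤ W) h'
  have := crossTrans (cross (restr inf_le_left r1) s1) (cross s2 (restr inf_le_left r2))
    (unimod s1) a b
  simpa only [map_mul] using this

/-- Coordinates can be checked on the members of an open cover. -/
theorem rep_local {c : T ⟶ 𝒜.C} {O : T.Opens} {y : κ → Γ(T, O)}
    (h : ∀ x ∈ O, ∃ (V : T.Opens) (hV : ⊤ ≤ V.ι ⁻¹ᵁ O), x ∈ V ∧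
      𝒜.Rep (V.ι ≫ c) ⊤ fun k => pl V.ι hV (y k)) : 𝒜.Rep c O y := fun k => by
  have key : ∀ x ∈ O, x ∈ T.basicOpen (y k) ↔ x ∈ c ⁻¹ᵁ 𝒜.Dk k := fun x hx => by
    obtain ⟨V, hV, hxV, hr⟩ := h x hx
    have e := (hr k).1
    rw [basicOpen_pl, top_inf_eq, top_inf_eq] at e
    exact ⟨fun h1 => e.le (show (⟨x, hxV⟩ : V) ∈ V.ι ⁻¹ᵁ T.basicOpen (y k) from h1),
      fun h1 => e.ge (show (⟨x, hxV⟩ : V) ∈ (V.ι ≫ c) ⁻¹ᵁ 𝒜.Dk k from h1)⟩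
  have e1 : T.basicOpen (y k) = O ⊓ c ⁻¹ᵁ 𝒜.Dk k :=
    le_antisymm (fun x hx => ⟨T.basicOpen_le _ hx, (key x (T.basicOpen_le _ hx)).mp hx⟩)
      fun x hx => (key x hx.1).mpr hx.2
  refine ⟨e1, fun l => eq_of_local fun x hx => ?_⟩
  obtain ⟨V, hV, hxV, hr⟩ := h x (T.basicOpen_le _ hx)
  refine ⟨V ⊓ T.basicOpen (y k), inf_le_right, ⟨hxV, hx⟩, res_eq_of_pl V ?_⟩
  have := rep_eq hr k l (le_top : V.ι ⁻¹ᵁ T.basicOpen (y k) ≤ ⊤)
    (V.ι.preimage_mono (e1.le.trans inf_le_right))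
  simpa only [map_mul, pl_pl, pl_res, res_pl] using this

/-- A morphism into one chart. -/
theorem exists_into (hE : ∀ e ∈ E, e.IsHomogeneous 2) (p : T ⟶ Spec (.of B)) (y : κ → Γ(T, ⊤))
    (k : κ) (hk : IsUnit (y k)) (he : ∀ e ∈ E, MvPolynomial.eval₂Hom (alg p ⊤) y e = 0) :
    ∃ g : T ⟶ 𝒜.C, g ≫ 𝒜.π = p ∧ 𝒜.Rep g ⊤ y := by
  obtain ⟨u, hu⟩ := hk.exists_right_inv
  let ψ : MvPolynomial κ B →+* Γ(T, ⊤) := MvPolynomial.eval₂Hom (alg p ⊤) fun l => y l * u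
  have hker : RingHom.ker (MvPolynomial.eval₂Hom (alg 𝒜.π (𝒜.Dk k)) (𝒜.Y k)) ≤ RingHom.ker ψ := by
    intro q hq
    refine (Ideal.span_le.mpr ?_ : _ ≤ RingHom.ker ψ) ((𝒜.ker k q).mp hq)
    rintro e (rfl | h)
    · simp [ψ, hu]
    · exact (eval₂_hom (hE e h) _ y u).trans (by rw [he e h, zero_mul])
  let φ := (MvPolynomial.eval₂Hom (alg 𝒜.π (𝒜.Dk k)) (𝒜.Y k)).liftOfSurjective (𝒜.surj k) ⟨ψ, hker⟩
  have hφ : ∀ q, φ (MvPolynomial.eval₂Hom (alg 𝒜.π (𝒜.Dk k)) (𝒜.Y k) q) = ψ q := fun q =>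
    RingHom.liftOfRightInverse_comp_apply _ _ _ ⟨ψ, hker⟩ q
  obtain ⟨g, hg, hpl⟩ := exists_hom (𝒜.aff k) φ
  have hY : ∀ l, pl g hg (𝒜.Y k l) = y l * u := fun l => by
    simpa [ψ, hpl] using hφ (MvPolynomial.X l)
  refine ⟨g, hom_ext_pb (RingHom.ext fun b => ?_), ?_⟩
  · rw [← alg_top, ← alg_top, ← pl_alg g 𝒜.π hg, hpl]
    simpa [ψ] using hφ (MvPolynomial.C b)
  · refine ofCross (restr hg (self 𝒜 g k))
      (unimod_of fun x hx => ⟨k, (basicOpen_of_isUnit hk).ge hx⟩) fun a b => ?_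
    simp only [res_pl, hY]
    ring

theorem glue (hE : ∀ e ∈ E, e.IsHomogeneous 2) (p : T ⟶ Spec (.of B)) {ι : Type}
    (O : ι → T.Opens) (y : ∀ i, κ → Γ(T, O i)) (hO : iSup O = ⊤) (hu : ∀ i, Unimod (y i))
    (he : ∀ i, ∀ e ∈ E, MvPolynomial.eval₂Hom (alg p (O i)) (y i) e = 0)
    (hc : ∀ i j, Cross (fun k => res (inf_le_left : O i ⊓ O j ≤ _) (y i k))
      fun k => res inf_le_right (y j k)) :
    ∃ c : T ⟶ 𝒜.C, c ≫ 𝒜.π = p ∧ ∀ i, 𝒜.Rep c (O i) (y i) := by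
  let V : ι × κ → T.Opens := fun a => T.basicOpen (y a.1 a.2)
  have hVO : ∀ a, ⊤ ≤ (V a).ι ⁻¹ᵁ O a.1 := fun a x _ => T.basicOpen_le _ x.2
  have hV : TopologicalSpace.IsOpenCover V := by
    refine TopologicalSpace.IsOpenCover.mk (top_le_iff.mp fun x _ => ?_)
    obtain ⟨i, hi⟩ := TopologicalSpace.Opens.mem_iSup.mp (hO.ge (Set.mem_univ x))
    obtain ⟨k, hk⟩ := Unimod.exists (hu i) hi
    exact TopologicalSpace.Opens.mem_iSup.mpr ⟨(i, k), hk⟩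
  have hg : ∀ a, ∃ g : (V a).toScheme ⟶ 𝒜.C, g ≫ 𝒜.π = (V a).ι ≫ p ∧
      𝒜.Rep g ⊤ fun k => pl (V a).ι (hVO a) (y a.1 k) := fun a => by
    refine exists_into hE _ _ a.2 (isUnit_of_basicOpen _ ?_) fun e h => ?_
    · rw [basicOpen_pl]
      exact le_inf le_rfl (V a).ι_preimage_self.ge
    · rw [← map_eval₂ _ _ _ (fun b => pl_alg (V a).ι p (hVO a) b), he _ e h, map_zero]
  choose g hgπ hgr using hg
  have hcomp : ∀ a b, pullback.fst (V a).ι (V b).ι ≫ g a = pullback.snd _ _ ≫ g b := fun a b => by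
    refine ext' ?_ fun x => ?_
    · rw [Category.assoc, Category.assoc, hgπ, hgπ, pullback.condition_assoc]
    · have r1 := pull (pullback.fst (V a).ι (V b).ι) (O' := ⊤) le_top (hgr a)
      have r2 := pull (pullback.snd (V a).ι (V b).ι) (O' := ⊤) le_top (hgr b)
      refine ⟨⊤, _, trivial, ofCross r1 (unimod r2) ?_, r2⟩
      have l1 : ⊤ ≤ (pullback.fst (V a).ι (V b).ι ≫ (V a).ι) ⁻¹ᵁ O a.1 :=
        le_top.trans ((pullback.fst (V a).ι (V b).ι).preimage_mono (hVO a))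
      have l2 : ⊤ ≤ (pullback.fst (V a).ι (V b).ι ≫ (V a).ι) ⁻¹ᵁ O b.1 := by
        rw [pullback.condition]
        exact le_top.trans ((pullback.snd (V a).ι (V b).ι).preimage_mono (hVO b))
      have := cross_map (pl (pullback.fst (V a).ι (V b).ι ≫ (V a).ι) (U := O a.1 ⊓ O b.1) (V := ⊤)
        (le_inf l1 l2)) (hc a.1 b.1)
      simp only [pl_res] at this
      simp only [pl_pl, pl_congr (pullback.condition (f := (V a).ι) (g := (V b).ι)).symm]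
      exact this
  let 𝒰 := T.openCoverOfIsOpenCover V hV
  have hι : ∀ a, (V a).ι ≫ 𝒰.glueMorphisms g hcomp = g a := fun a =>
    𝒰.ι_glueMorphisms g hcomp a
  refine ⟨𝒰.glueMorphisms g hcomp, 𝒰.hom_ext _ _ fun a => ?_, fun i => rep_local fun x hx => ?_⟩
  · exact (Category.assoc _ _ _).symm.trans ((congrArg (· ≫ 𝒜.π) (hι a)).trans (hgπ a))
  · obtain ⟨k, hk⟩ := Unimod.exists (hu i) hx
    refine ⟨V (i, k), hVO (i, k), hk, ?_⟩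
    rw [hι]
    exact hgr (i, k)

theorem rep : SRep := fun _ _ _ _ hE 𝒜 =>
  { self := self 𝒜
    restr := restr
    pull := pull
    unimod := unimod
    eqs := eqs hE
    cross := cross
    ofCross := ofCross
    crossTrans := crossTrans
    ext := fun O y hπ hO h h' => ext' hπ fun x => by
      obtain ⟨i, hi⟩ := TopologicalSpace.Opens.mem_iSup.mp (hO.ge (Set.mem_univ x))
      exact ⟨O i, y i, hi, h i, h' i⟩
    extDense := extDense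
    glue := glue hE }

end Pool.Agent.MP_52bf41_ag.H39
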